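import Pool.Agent.H41.HYP.S2
import Pool.Agent.H65.AVS.Loc

/-!
# HYP, module NON: the sum of a unit and `π` times a unimodular matrix
-/

set_option autoImplicit false

namespace Pool.HYP.NON34

open Polynomial Matrix Pool.AVS Pool.AVS.DS IsLocalRing

/-- A nonvanishing minor of a matrix with independent rows. -/
theorem exists_minor {K : Type} [Field K] {g n : ℕ} (e : Fin g → Fin n → K)
    (he : LinearIndependent K e) :
    ∃ f : Fin g → Fin n, (Matrix.of fun i j => e i (f j)).det ≠ 0 := by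
  have hr : (Matrix.of e).rank = g := by
    have := he.rank_matrix (M := Matrix.of e)
    simpa using this
  have hs : Module.finrank K (Submodule.span K (Set.range (Matrix.of e).col)) = g := by
    rw [← Matrix.rank_eq_finrank_span_cols]; exact hr
  obtain ⟨u, hu, -, hli⟩ := Submodule.exists_fun_fin_finrank_span_eq K
    (Set.range (Matrix.of e).col)
  choose v hv using hu
  have hli' := hli.comp (Fin.cast hs.symm) (Fin.cast_injective _)
  refine ⟨fun j => v (Fin.cast hs.symm j), ?_⟩
  have h0 : (Matrix.of fun i j => e i (v (Fin.cast hs.symm j))).col = u ∘ Fin.cast hs.symm := by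
    funext j
    exact hv (Fin.cast hs.symm j)
  have h1 : LinearIndependent K
      (Matrix.of fun i j => e i (v (Fin.cast hs.symm j))).col := by
    rw [h0]
    exact hli'
  rw [Matrix.linearIndependent_cols_iff_isUnit, Matrix.isUnit_iff_isUnit_det] at h1
  exact h1.ne_zero

/-- A symmetric matrix of size `2 g` with a totally isotropic subspace of dimension `g`. -/
theorem iso_det {k : Type} [Field k] {g : ℕ} (Ψ : Matrix (Fin (2 * g)) (Fin (2 * g)) k)
    (hΨ : Ψᵀ = Ψ) (y : Fin g → Fin (2 * g) → k) (f : Fin g → Fin (2 * g))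
    (hf : ∀ i j, y i (f j) = if i = j then 1 else 0)
    (hy : ∀ i j, y i ⬝ᵥ (Ψ *ᵥ y j) = 0) : IsSquare ((-1) ^ g * Ψ.det) := by
  classical
  have hinj : Function.Injective f := by
    intro a b hab
    have h1 := hf a a
    rw [hab, hf a b] at h1
    by_contra hne
    simp [hne] at h1
  have hcard : Fintype.card (Fin g) = Fintype.card ((Set.range f)ᶜ : Set (Fin (2 * g))) := by
    rw [Fintype.card_compl_set, Set.card_range_of_injective hinj]
    simp
    omega
  let τ : Fin g ≃ ((Set.range f)ᶜ : Set (Fin (2 * g))) := Fintype.equivOfCardEq hcard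
  let σ : Fin g ⊕ Fin g ≃ Fin (2 * g) :=
    ((Equiv.ofInjective f hinj).sumCongr τ).trans (Equiv.Set.sumCompl (Set.range f))
  have hσ : ∀ i, σ (Sum.inl i) = f i := fun i => by simp [σ]
  let P : Matrix (Fin g ⊕ Fin g) (Fin g ⊕ Fin g) k :=
    fromBlocks 1 (Matrix.of fun i j => y i (σ (Sum.inr j))) 0 1
  have hP : P.det = 1 := by simp [P, Matrix.det_fromBlocks_zero₂₁]
  have hPl : ∀ i b, P (Sum.inl i) b = y i (σ b) := by
    rintro i (b | b)
    · rw [hσ, hf]
      simp [P, Matrix.one_apply]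
    · simp [P]
  let Ψ' : Matrix (Fin g ⊕ Fin g) (Fin g ⊕ Fin g) k := Ψ.submatrix σ σ
  have hdet : Ψ'.det = Ψ.det := Matrix.det_submatrix_equiv_self σ Ψ
  let M := P * Ψ' * Pᵀ
  have hM : M.det = Ψ.det := by
    simp only [M, Matrix.det_mul, Matrix.det_transpose, hP, hdet, one_mul, mul_one]
  have hMT : Mᵀ = M := by
    have : Ψ'ᵀ = Ψ' := by
      ext i j
      exact congrFun (congrFun hΨ (σ i)) (σ j)
    simp only [M, Matrix.transpose_mul, Matrix.transpose_transpose, this, Matrix.mul_assoc]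
  have hM11 : M.toBlocks₁₁ = 0 := by
    ext i j
    have h1 := hy i j
    have h2 : M (Sum.inl i) (Sum.inl j) = y i ⬝ᵥ (Ψ *ᵥ y j) := by
      simp only [M, Matrix.mul_apply, Matrix.transpose_apply, hPl, Ψ', Matrix.submatrix_apply,
        dotProduct, Matrix.mulVec]
      rw [← Equiv.sum_comp σ (fun a => y i a * ∑ b, Ψ a b * y j b)]
      simp only [Finset.sum_mul, Finset.mul_sum]
      rw [Finset.sum_comm]
      refine Finset.sum_congr rfl fun a _ => ?_
      rw [← Equiv.sum_comp σ (fun b => y i (σ a) * (Ψ (σ a) b * y j b))]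
      exact Finset.sum_congr rfl fun b _ => by ring
    simp only [Matrix.toBlocks₁₁, Matrix.of_apply, h2, h1, Matrix.zero_apply]
  have hM21 : M.toBlocks₂₁ = (M.toBlocks₁₂)ᵀ := by
    ext i j
    exact congrFun (congrFun hMT (Sum.inl j)) (Sum.inr i)
  have hMM : M = fromBlocks 0 M.toBlocks₁₂ (M.toBlocks₁₂)ᵀ M.toBlocks₂₂ := by
    conv_lhs => rw [← Matrix.fromBlocks_toBlocks M, hM11, hM21]
  have hJ : (fromBlocks 0 1 1 0 : Matrix (Fin g ⊕ Fin g) (Fin g ⊕ Fin g) k).det = (-1) ^ g := by
    have h1 : (fromBlocks 0 1 1 0 : Matrix (Fin g ⊕ Fin g) (Fin g ⊕ Fin g) k) *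
        fromBlocks 1 1 0 1 = fromBlocks 0 1 1 1 := by
      rw [Matrix.fromBlocks_multiply]
      simp
    have h2 := congrArg Matrix.det h1
    rw [Matrix.det_mul, Matrix.det_fromBlocks_zero₂₁, Matrix.det_fromBlocks_one₂₂] at h2
    simpa [Matrix.det_neg] using h2
  have h3 : M * fromBlocks 0 1 1 0 = fromBlocks M.toBlocks₁₂ 0 M.toBlocks₂₂ (M.toBlocks₁₂)ᵀ := by
    conv_lhs => rw [hMM]
    rw [Matrix.fromBlocks_multiply]
    simp
  have h4 := congrArg Matrix.det h3
  rw [Matrix.det_mul, Matrix.det_fromBlocks_zero₁₂, hM, hJ, Matrix.det_transpose] at h4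
  exact ⟨M.toBlocks₁₂.det, by rw [mul_comm, h4]⟩

theorem sqrt_unit {R : Type} [CommRing R] [HenselianLocalRing R] (h2 : IsUnit (2 : R)) (β d : R)
    (hβ : IsUnit β) (hd : d ∈ IsLocalRing.maximalIdeal R) :
    ∃ r, r ^ 2 = β ^ 2 + d := by
  have hm : (X ^ 2 - C (β ^ 2 + d) : R[X]).Monic := monic_X_pow_sub_C _ two_ne_zero
  obtain ⟨r, hr, hr2⟩ := HenselianLocalRing.is_henselian (X ^ 2 - C (β ^ 2 + d) : R[X]) hm β
    (by
      have : (X ^ 2 - C (β ^ 2 + d) : R[X]).eval β = -d := by
        simp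
      rw [this]
      exact neg_mem hd)
    (by
      have : (derivative (X ^ 2 - C (β ^ 2 + d) : R[X])).eval β = 2 * β := by
        rw [derivative_sub, derivative_C, derivative_X_pow]
        simp
      rw [this]
      exact h2.mul hβ)
  refine ⟨r, ?_⟩
  have h : (X ^ 2 - C (β ^ 2 + d) : R[X]).eval r = 0 := hr
  simp only [eval_sub, eval_pow, eval_X, eval_C] at h
  linear_combination h

variable {L : Type} [Field L] {O : ValuationSubring L} {π : L}

theorem mem_max (hL : Loc L O π) (x : O) (h : (x : L) / π ∈ O) : x ∈ maximalIdeal O := by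
  rw [mem_maximalIdeal, mem_nonunits_iff]
  intro hu
  obtain ⟨u, rfl⟩ := hu
  have h1 : ((u : O) : L) * ((↑u⁻¹ : O) : L) = 1 := congrArg Subtype.val u.mul_inv
  have h2 : ((u : O) : L)⁻¹ = ((↑u⁻¹ : O) : L) := inv_eq_of_mul_eq_one_right h1
  refine not_P_unit hL (x := ((u : O) : L)) ?_ ?_ h
  · rw [h2]
    exact Subtype.property _
  · intro h0
    rw [h0, zero_mul] at h1
    exact zero_ne_one h1

theorem isUnit_of_UI (x : O) (h : UI (O : Set L) (x : L)) : IsUnit x := by
  refine IsUnit.of_mul_eq_one (⟨(x : L)⁻¹, h.2.2⟩ : O) ?_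
  apply Subtype.ext
  exact mul_inv_cancel₀ h.1

/-- Integral vectors which span a given subspace and stay independent in the reduction. -/
theorem saturated {g n : ℕ} (O : ValuationSubring L) (e : Fin g → Fin n → L)
    (he : LinearIndependent L e) :
    ∃ (c : Fin g → Fin n → L) (f : Fin g → Fin n) (a : Matrix (Fin g) (Fin g) L),
      (∀ i j, c i j ∈ O) ∧ (∀ i j, c i (f j) = if i = j then 1 else 0) ∧
      ∀ i, c i = ∑ k, a i k • e k := by
  classical
  obtain ⟨f0, hf0⟩ := exists_minor e he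
  have : Nonempty (Fin g → Fin n) := ⟨f0⟩
  obtain ⟨f, hf⟩ := Finite.exists_max
    (fun f : Fin g → Fin n => O.valuation ((Matrix.of fun i j => e i (f j)).det))
  set A : Matrix (Fin g) (Fin g) L := Matrix.of fun i j => e i (f j) with hA
  have hA0 : A.det ≠ 0 := by
    intro h0
    have h1 := hf f0
    rw [h0, map_zero, le_zero_iff, map_eq_zero] at h1
    exact hf0 h1
  have hAu : IsUnit A.det := isUnit_iff_ne_zero.2 hA0
  have key : ∀ j, A⁻¹ *ᵥ (fun k => e k j) =
      fun i => (Matrix.of fun i' j' => e i' (Function.update f i j j')).det / A.det := by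
    intro j
    have h1 := Matrix.mulVec_cramer A (fun k => e k j)
    have h2 := congrArg (fun w => A⁻¹ *ᵥ w) h1
    simp only [Matrix.mulVec_mulVec, Matrix.nonsing_inv_mul A hAu, Matrix.one_mulVec,
      Matrix.mulVec_smul] at h2
    funext i
    have h3 := congrFun h2 i
    rw [Pi.smul_apply, smul_eq_mul, Matrix.cramer_apply] at h3
    rw [eq_div_iff hA0, mul_comm, ← h3]
    congr 1
    ext i' j'
    by_cases hj : j' = i
    · subst hj
      simp [Matrix.updateCol_apply, Function.update_self]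
    · simp [Matrix.updateCol_apply, hA, Function.update_of_ne hj, hj]
  refine ⟨fun i j => (A⁻¹ *ᵥ (fun k => e k j)) i, f, A⁻¹, ?_, ?_, ?_⟩
  · intro i j
    show (A⁻¹ *ᵥ (fun k => e k j)) i ∈ O
    rw [key, ← ValuationSubring.valuation_le_one_iff, map_div₀]
    exact div_le_one_of_le₀ (hf _) zero_le'
  · intro i j
    have h1 : A⁻¹ * A = 1 := Matrix.nonsing_inv_mul A hAu
    have h2 := congrFun (congrFun h1 i) j
    rw [Matrix.one_apply] at h2
    rw [← h2]
    rfl
  · intro i
    funext j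
    simp only [Matrix.mulVec, dotProduct, Finset.sum_apply, Pi.smul_apply, smul_eq_mul]

end Pool.HYP.NON34

namespace Pool.HYP

open Polynomial Matrix Pool.AVS Pool.AVS.DS IsLocalRing NON34

theorem non : NONStmt := by
  classical
  intro L _ O π hL g ε Ψ G hε hΨ hΨO hΨd hB hS
  obtain ⟨e, he, hiso⟩ := hS
  obtain ⟨c, f, a, hcO, hcf, hca⟩ := saturated O e he
  have hci : ∀ i j, c i ⬝ᵥ (G *ᵥ c j) = 0 := by
    intro i j
    rw [hca i, hca j, Matrix.mulVec_sum, sum_dotProduct]
    refine Finset.sum_eq_zero fun k _ => ?_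
    rw [dotProduct_sum]
    refine Finset.sum_eq_zero fun l _ => ?_
    rw [Matrix.mulVec_smul, smul_dotProduct, dotProduct_smul, hiso, smul_zero, smul_zero]
  have hform : ∀ i j, ε * c i 0 * c j 0 +
      π * ((fun t => c i t.succ) ⬝ᵥ (Ψ *ᵥ fun t => c j t.succ)) = 0 := by
    intro i j
    have h1 := hci i j
    rw [dotProduct, Fin.sum_univ_succ] at h1
    simp only [Matrix.mulVec, dotProduct, Fin.sum_univ_succ] at h1
    rw [hB.1] at h1
    simp only [fun t => (hB.2.1 t).1, fun t => (hB.2.1 t).2, hB.2.2, Matrix.smul_apply,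
      smul_eq_mul, zero_mul, Finset.sum_const_zero, add_zero, zero_add] at h1
    rw [← h1]
    simp only [dotProduct, Matrix.mulVec, Finset.mul_sum]
    congr 1
    · ring
    · refine Finset.sum_congr rfl fun t _ => Finset.sum_congr rfl fun s _ => by ring
  have hyO : ∀ i j, (fun t => c i t.succ) ⬝ᵥ (Ψ *ᵥ fun t => c j t.succ) ∈ O := by
    intro i j
    simp only [dotProduct, Matrix.mulVec]
    refine sum_mem fun t _ => O.mul_mem _ _ (hcO _ _) (sum_mem fun s _ =>
      O.mul_mem _ _ (hΨO _ _) (hcO _ _))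
  have hc0 : ∀ i, c i 0 / π ∈ O := by
    intro i
    have h1 := hform i i
    refine P_sq hL (hcO i 0) ?_
    refine P_of_unit_mul hL hε ?_
    have h2 : ε * c i 0 ^ 2 / π = -((fun t => c i t.succ) ⬝ᵥ (Ψ *ᵥ fun t => c i t.succ)) := by
      rw [div_eq_iff hL.pi_ne]
      linear_combination h1
    rw [h2]
    exact O.neg_mem _ (hyO i i)
  have hyπ : ∀ i j, ((fun t => c i t.succ) ⬝ᵥ (Ψ *ᵥ fun t => c j t.succ)) / π ∈ O := by
    intro i j
    have h1 := hform i j
    have h2 : ((fun t => c i t.succ) ⬝ᵥ (Ψ *ᵥ fun t => c j t.succ)) / π =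
        -(ε * (c i 0 / π) * (c j 0 / π)) := by
      rw [div_eq_iff hL.pi_ne]
      field_simp [hL.pi_ne]
      linear_combination h1
    rw [h2]
    exact O.neg_mem _ (O.mul_mem _ _ (O.mul_mem _ _ hε.2.1 (hc0 i)) (hc0 j))
  -- the columns of the identity minor
  have hf0 : ∀ j, f j ≠ 0 := by
    intro j h0
    have h1 := hcf j j
    rw [h0, if_pos rfl] at h1
    have h2 := hc0 j
    rw [h1] at h2
    exact not_P_one hL h2
  let f' : Fin g → Fin (2 * g) := fun j => (f j).pred (hf0 j)
  have hf' : ∀ j, (f' j).succ = f j := fun j => Fin.succ_pred _ _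
  -- reduction
  let cO : Fin g → Fin (2 * g) → O := fun i t => ⟨c i t.succ, hcO _ _⟩
  let ΨO : Matrix (Fin (2 * g)) (Fin (2 * g)) O := fun i j => ⟨Ψ i j, hΨO i j⟩
  have hΨOT : ΨOᵀ = ΨO := by
    ext i j
    exact congrFun (congrFun hΨ i) j
  have hdetO : ((ΨO.det : O) : L) = Ψ.det := by
    have := RingHom.map_det O.subtype ΨO
    rw [show (ΨO.det : L) = O.subtype ΨO.det from rfl, this]
    rfl
  have hsq := iso_det (ΨO.map (residue O)) (by rw [← Matrix.transpose_map, hΨOT])
    (fun i t => residue O (cO i t)) f'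
    (by
      intro i j
      have h1 : cO i (f' j) = if i = j then 1 else 0 := by
        apply Subtype.ext
        show c i (f' j).succ = _
        rw [hf', hcf]
        split_ifs <;> rfl
      rw [h1]
      split_ifs
      · exact map_one _
      · exact map_zero _)
    (by
      intro i j
      have h1 : ((fun t => residue O (cO i t)) ⬝ᵥ
          ((ΨO.map (residue O)) *ᵥ fun t => residue O (cO j t))) =
          residue O (cO i ⬝ᵥ (ΨO *ᵥ cO j)) := by
        simp only [dotProduct, Matrix.mulVec, Matrix.map_apply, map_sum, map_mul]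
      rw [h1, residue_eq_zero_iff]
      refine mem_max hL _ ?_
      have h2 : ((cO i ⬝ᵥ (ΨO *ᵥ cO j) : O) : L) =
          (fun t => c i t.succ) ⬝ᵥ (Ψ *ᵥ fun t => c j t.succ) := by
        simp only [dotProduct, Matrix.mulVec]
        push_cast
        rfl
      rw [h2]
      exact hyπ i j)
  obtain ⟨z, hz⟩ := hsq
  obtain ⟨β, rfl⟩ := residue_surjective z
  have hΨu : IsUnit ΨO.det := isUnit_of_UI _ (by rw [hdetO]; exact hΨd)
  have hdu : IsUnit ((-1) ^ g * ΨO.det) := (IsUnit.pow _ isUnit_one.neg).mul hΨu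
  have hz' : residue O ((-1) ^ g * ΨO.det) = residue O β * residue O β := by
    rw [← hz, map_mul, map_pow, map_neg, map_one]
    congr 1
    exact RingHom.map_det (residue O) ΨO
  have hβ : IsUnit β := by
    have h1 : residue O ((-1) ^ g * ΨO.det) ≠ 0 := by
      rw [residue_ne_zero_iff_isUnit]; exact hdu
    rw [hz'] at h1
    exact (residue_ne_zero_iff_isUnit β).1 (left_ne_zero_of_mul h1)
  have hmem : (-1) ^ g * ΨO.det - β ^ 2 ∈ maximalIdeal O := by
    rw [← residue_eq_zero_iff, map_sub, hz', map_pow]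
    ring
  have := hL.hens
  have h2 : IsUnit (2 : O) := isUnit_of_UI (2 : O) ⟨hL.two.1, (2 : O).2, hL.two.2⟩
  obtain ⟨r, hr⟩ := sqrt_unit h2 β _ hβ hmem
  refine ⟨(r : L), ?_⟩
  have h3 : (r : L) ^ 2 = (β : L) ^ 2 + ((-1) ^ g * (ΨO.det : L) - (β : L) ^ 2) := by
    have := congrArg (fun t : O => (t : L)) hr
    push_cast at this
    exact this
  rw [hdetO] at h3
  linear_combination -h3

end Pool.HYP
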