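import Pool.Agent.H41.HYP.S4
import Pool.Agent.H94.HYP.GDT
import Pool.Agent.H69.HYP.SPL

/-!
# HYP, module CTX: the number of the matrices `S` for given `G`, over a finite field
-/

set_option autoImplicit false

namespace Pool.HYP.CTX34

open Polynomial Matrix Pool.AVS

/-- The matrix of multiplication by `s`. -/
noncomputable def mm {K : Type} [Field K] (n : ℕ) (f s : K[X]) : Matrix (Fin n) (Fin n) K :=
  Matrix.of fun i j : Fin n => vec n f (s * X ^ (j : ℕ)) i

theorem mm_gr {K : Type} [Field K] {n : ℕ} {f : K[X]} (hf : f.Monic)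
    (hn : f.natDegree = n) (h0 : 0 < n) (s : K[X]) (hd : f ∣ 1 - s ^ 2) (k : ℕ) :
    (mm n f s)ᵀ * gr k n f 1 * mm n f s = gr k n f 1 := by
  have hgr : gr k n f (1 : K[X]) = gr 0 n f (X ^ k) := by
    ext i j
    simp only [gr, of_apply]
    congr 1
    ring
  ext i j
  have h1 : ((mm n f s)ᵀ * gr k n f 1 * mm n f s) i j =
      vec n f (s * X ^ (i : ℕ)) ⬝ᵥ (gr k n f 1 *ᵥ vec n f (s * X ^ (j : ℕ))) := by
    rw [Matrix.mul_assoc, Matrix.mul_apply]
    rfl
  rw [h1, hgr, tau_vec hf hn h0]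
  show _ = tau f (X ^ ((i : ℕ) + (j : ℕ) + 0) * X ^ k)
  refine (tau_eq_of_dvd hf ?_).symm
  obtain ⟨c, hc⟩ := hd
  exact ⟨X ^ ((i : ℕ) + (j : ℕ) + k) * c, by
    linear_combination X ^ ((i : ℕ) + (j : ℕ) + k) * hc⟩

/-- If multiplication by `s` is a scalar, then `s` is a scalar. -/
theorem mm_scalar {K : Type} [Field K] {n : ℕ} {f : K[X]} (hf : f.Monic)
    (hn : f.natDegree = n) (h0 : 0 < n) (s : K[X]) (ε : K)
    (h : mm n f s = ε • (1 : Matrix (Fin n) (Fin n) K)) : f ∣ s - C ε := by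
  have h1 : s %ₘ f = C ε := by
    rw [← vec_sum hf hn h0 s, Finset.sum_eq_single (⟨0, h0⟩ : Fin n)]
    · have h2 := congrFun (congrFun h ⟨0, h0⟩) ⟨0, h0⟩
      simp only [mm, of_apply, Matrix.smul_apply, Matrix.one_apply_eq, smul_eq_mul, mul_one,
        pow_zero] at h2
      rw [h2]
      simp
    · intro i _ hi
      have h2 := congrFun (congrFun h i) ⟨0, h0⟩
      simp only [mm, of_apply, Matrix.smul_apply, Matrix.one_apply_ne hi, smul_eq_mul, mul_zero,
        pow_zero, mul_one] at h2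
      rw [h2]
      simp
    · intro h3
      exact absurd (Finset.mem_univ _) h3
  refine ⟨s /ₘ f, ?_⟩
  have h2 := modByMonic_add_div s f
  rw [h1] at h2
  linear_combination -h2

/-- A square root of `1` modulo `(x - c) γ` different from `± 1`. -/
theorem exists_root {K : Type} [Field K] (h2 : (2 : K) ≠ 0) (c : K) (γ : K[X]) (hγ : Irreducible γ)
    (hd : 1 < γ.natDegree) :
    ∃ s : K[X], (X - C c) * γ ∣ 1 - s ^ 2 ∧ ¬ (X - C c) * γ ∣ s - C 1 ∧
      ¬ (X - C c) * γ ∣ s - C (-1) := by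
  have hroot : γ.eval c ≠ 0 := by
    intro h0
    have h1 : (X - C c) ∣ γ := dvd_iff_isRoot.2 h0
    have h3 := (hγ.dvd_iff.1 h1)
    rcases h3 with h3 | h3
    · exact Polynomial.not_isUnit_X_sub_C c h3
    · have h4 := natDegree_eq_of_degree_eq (degree_eq_degree_of_associated h3)
      rw [natDegree_X_sub_C] at h4
      omega
  have hcop : IsCoprime (X - C c) γ := by
    rw [(Polynomial.irreducible_X_sub_C c).coprime_iff_not_dvd, dvd_iff_isRoot]
    exact hroot
  obtain ⟨u, v, huv⟩ := hcop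
  refine ⟨1 - 2 * (u * (X - C c)), ?_, ?_, ?_⟩
  · exact ⟨4 * u * v, by linear_combination (-4 * u * (X - C c)) * huv⟩
  · intro h
    have h3 : γ ∣ 1 := by
      have h4 : γ ∣ 2 * (u * (X - C c)) := by
        have h5 := (Dvd.intro_left _ rfl : γ ∣ (X - C c) * γ).trans h
        have h6 : 1 - 2 * (u * (X - C c)) - C 1 = -(2 * (u * (X - C c))) := by
          rw [C_1]; ring
        rw [h6] at h5
        exact (dvd_neg.1 h5)
      have h5 : γ ∣ C (2 : K) * 1 := by
        have h6 : C (2 : K) * 1 = 2 * (u * (X - C c)) + 2 * v * γ := by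
          have : (C (2 : K) : K[X]) = 2 := rfl
          rw [this]
          linear_combination -2 * huv
        rw [h6]
        exact dvd_add h4 (Dvd.intro_left _ rfl)
      have h6 := Dvd.dvd.mul_left h5 (C (2 : K)⁻¹)
      rwa [← mul_assoc, ← C_mul, inv_mul_cancel₀ h2, C_1, one_mul] at h6
    exact hγ.not_isUnit (isUnit_of_dvd_one h3)
  · intro h
    have h3 : (X - C c) ∣ 1 - 2 * (u * (X - C c)) - C (-1) := (Dvd.intro _ rfl).trans h
    rw [dvd_iff_isRoot] at h3
    have h4 : (1 - 2 * (u * (X - C c)) - C (-1) : K[X]).eval c = 0 := h3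
    simp at h4
    apply h2
    linear_combination h4

theorem choose_two (g : ℕ) : (2 * g + 1 + 1).choose 2 = (2 * g + 1) * (g + 1) := by
  rw [Nat.choose_two_right]
  have h1 : (2 * g + 1 + 1) * (2 * g + 1 + 1 - 1) = ((2 * g + 1) * (g + 1)) * 2 := by
    rw [Nat.add_sub_cancel]; ring
  rw [h1, Nat.mul_div_cancel _ (by norm_num)]

open Classical in
theorem core {k : Type} [Field k] [Fintype k] (h2 : (2 : k) ≠ 0) (n : ℕ) (hodd : Odd n)
    (G0 S0 : Matrix (Fin n) (Fin n) k) (hG0 : G0ᵀ = G0) (hdet : G0.det ≠ 0)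
    (m : Matrix (Fin n) (Fin n) k) (hm0 : mᵀ * G0 * m = G0) (hm1 : mᵀ * S0 * m = S0)
    (hm2 : m ≠ 1) (hm3 : m ≠ -1)
    (h3 : {G : Matrix (Fin n) (Fin n) k | Gᵀ = G ∧ G.det = 0}.ncard * Fintype.card k ≤
      n * Fintype.card k ^ (n * (n + 1) / 2))
    (h4 : ∀ (G G' : Matrix (Fin n) (Fin n) k), Gᵀ = G → G'ᵀ = G' → G.det ≠ 0 → G'.det ≠ 0 →
      IsSquare (G.det * G'.det) → ∃ a : Matrix (Fin n) (Fin n) k, a.det ≠ 0 ∧ aᵀ * G * a = G')
    (G : Matrix (Fin n) (Fin n) k) :
    2 * (Fintype.card k - n) * {S : Matrix (Fin n) (Fin n) k |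
        ∃ a : Matrix (Fin n) (Fin n) k, a.det ≠ 0 ∧ G = aᵀ * G0 * a ∧ S = aᵀ * S0 * a}.ncard *
      Fintype.card k ^ (n * (n + 1) / 2) ≤ Fintype.card k * Fintype.card k ^ (n * n) := by
  set Q := Fintype.card k with hQ
  set φ := {S : Matrix (Fin n) (Fin n) k |
        ∃ a : Matrix (Fin n) (Fin n) k, a.det ≠ 0 ∧ G = aᵀ * G0 * a ∧ S = aᵀ * S0 * a} with hφ
  rcases φ.eq_empty_or_nonempty with hem | ⟨S1, b, hb, hGb, -⟩
  · rw [hem]; simp
  have hn0 : n ≠ 0 := by rintro rfl; exact absurd hodd (by decide)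
  have hGT : Gᵀ = G := by
    rw [hGb, Matrix.transpose_mul, Matrix.transpose_mul, Matrix.transpose_transpose, hG0,
      Matrix.mul_assoc]
  have hGd : G.det ≠ 0 := by
    rw [hGb, Matrix.det_mul, Matrix.det_mul, Matrix.det_transpose]
    exact mul_ne_zero (mul_ne_zero hb hdet) hb
  have h11 : (1 : k) ≠ -1 := by
    intro h
    apply h2
    linear_combination h
  have h11M : (1 : Matrix (Fin n) (Fin n) k) ≠ -1 := by
    intro h
    have := congrFun (congrFun h ⟨0, Nat.pos_of_ne_zero hn0⟩) ⟨0, Nat.pos_of_ne_zero hn0⟩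
    simp only [Matrix.one_apply_eq, Matrix.neg_apply] at this
    exact h11 this
  have hmd : m.det ≠ 0 := by
    intro h
    apply hdet
    rw [← hm0, Matrix.det_mul, h, mul_zero]
  -- the group and the orbit
  let gg : Finset (Matrix (Fin n) (Fin n) k) := Finset.univ.filter fun a => a.det ≠ 0
  let Φ : Matrix (Fin n) (Fin n) k → Matrix (Fin n) (Fin n) k × Matrix (Fin n) (Fin n) k :=
    fun a => (aᵀ * G0 * a, aᵀ * S0 * a)
  have hGL : gg.card ≤ Q ^ (n * n) := by
    refine (Finset.card_le_univ _).trans ?_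
    have h5 : Fintype.card (Matrix (Fin n) (Fin n) k) = Fintype.card (Fin n → Fin n → k) :=
      Fintype.card_congr Matrix.of.symm
    rw [h5]
    simp [pow_mul, hQ]
  have hE : 4 * (gg.image Φ).card ≤ gg.card := by
    refine Finset.mul_card_image_le_card gg 4 fun p hp => ?_
    obtain ⟨a, ha, rfl⟩ := Finset.mem_image.1 hp
    have had : a.det ≠ 0 := (Finset.mem_filter.1 ha).2
    have hau : IsUnit a := (Matrix.isUnit_iff_isUnit_det a).2 (isUnit_iff_ne_zero.2 had)
    have hsub : ({a, -a, m * a, -(m * a)} : Finset (Matrix (Fin n) (Fin n) k)) ⊆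
        gg.filter fun x => Φ x = Φ a := by
      have hma : (m * a).det ≠ 0 := by
        rw [Matrix.det_mul]; exact mul_ne_zero hmd had
      have e0 : (m * a)ᵀ * G0 * (m * a) = aᵀ * G0 * a := by
        have : (m * a)ᵀ * G0 * (m * a) = aᵀ * (mᵀ * G0 * m) * a := by
          simp only [Matrix.transpose_mul, Matrix.mul_assoc]
        rw [this, hm0]
      have e1 : (m * a)ᵀ * S0 * (m * a) = aᵀ * S0 * a := by
        have : (m * a)ᵀ * S0 * (m * a) = aᵀ * (mᵀ * S0 * m) * a := by
          simp only [Matrix.transpose_mul, Matrix.mul_assoc]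
        rw [this, hm1]
      have hneg : ∀ x : Matrix (Fin n) (Fin n) k, Φ (-x) = Φ x := fun x => by
        simp only [Φ, Matrix.transpose_neg, Matrix.neg_mul, Matrix.mul_neg, neg_neg]
      have hdneg : ∀ x : Matrix (Fin n) (Fin n) k, x.det ≠ 0 → (-x).det ≠ 0 := fun x hx => by
        rw [Matrix.det_neg]
        exact mul_ne_zero (pow_ne_zero _ (neg_ne_zero.2 one_ne_zero)) hx
      intro x hx
      simp only [Finset.mem_insert, Finset.mem_singleton] at hx
      rw [Finset.mem_filter, Finset.mem_filter]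
      rcases hx with rfl | rfl | rfl | rfl
      · exact ⟨⟨Finset.mem_univ _, had⟩, rfl⟩
      · exact ⟨⟨Finset.mem_univ _, hdneg _ had⟩, hneg _⟩
      · exact ⟨⟨Finset.mem_univ _, hma⟩, by simp only [Φ, e0, e1]⟩
      · exact ⟨⟨Finset.mem_univ _, hdneg _ hma⟩, by rw [hneg]; simp only [Φ, e0, e1]⟩
    refine le_trans ?_ (Finset.card_le_card hsub)
    have c1 : a ≠ -a := by
      intro h
      apply h11M
      exact hau.mul_right_cancel (show (1 : Matrix (Fin n) (Fin n) k) * a = -1 * a by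
        rw [one_mul, neg_mul, one_mul]; exact h)
    have c2 : a ≠ m * a := by
      intro h
      exact hm2 (hau.mul_right_cancel (by rw [one_mul]; exact h)).symm
    have c3 : a ≠ -(m * a) := by
      intro h
      apply hm3
      have h5 := congrArg (fun x => -x) h
      simp only [neg_neg] at h5
      exact hau.mul_right_cancel (show m * a = -1 * a by
        rw [neg_mul, one_mul]; exact h5.symm)
    have c4 : -a ≠ m * a := by
      intro h
      apply hm3
      exact (hau.mul_right_cancel (by rw [neg_mul, one_mul]; exact h)).symm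
    have c5 : -a ≠ -(m * a) := by
      intro h
      exact c2 (neg_injective h)
    have c6 : m * a ≠ -(m * a) := by
      intro h
      have hmu : IsUnit m := (Matrix.isUnit_iff_isUnit_det m).2 (isUnit_iff_ne_zero.2 hmd)
      have h5 : m * a = m * (-a) := by rw [mul_neg]; exact h
      exact c1 (hmu.mul_left_cancel h5)
    rw [Finset.card_insert_of_notMem, Finset.card_insert_of_notMem,
      Finset.card_insert_of_notMem, Finset.card_singleton]
    · simp only [Finset.mem_singleton]; exact c6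
    · simp only [Finset.mem_insert, Finset.mem_singleton, not_or]; exact ⟨c4, c5⟩
    · simp only [Finset.mem_insert, Finset.mem_singleton, not_or]; exact ⟨c1, c2, c3⟩
  -- the classes of symmetric matrices
  let NN : Finset (Matrix (Fin n) (Fin n) k) := Finset.univ.filter fun H => Hᵀ = H ∧ H.det ≠ 0
  let NP : Finset (Matrix (Fin n) (Fin n) k) := NN.filter fun H => IsSquare (G.det * H.det)
  have hNP : ∀ H ∈ NP, ∃ u : Matrix (Fin n) (Fin n) k, u.det ≠ 0 ∧ uᵀ * G * u = H := by
    intro H hH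
    obtain ⟨hH1, hH2⟩ := Finset.mem_filter.1 hH
    obtain ⟨-, hH3, hH4⟩ := Finset.mem_filter.1 hH1
    exact h4 G H hGT hH3 hGd hH4 hH2
  have hfin : φ.Finite := Set.toFinite _
  have hprod : NP.card * φ.ncard ≤ (gg.image Φ).card := by
    rw [Set.ncard_eq_toFinset_card' φ, ← Finset.card_product]
    have : ∀ H : Matrix (Fin n) (Fin n) k, ∃ u : Matrix (Fin n) (Fin n) k,
        H ∈ NP → u.det ≠ 0 ∧ uᵀ * G * u = H := fun H => by
      by_cases hH : H ∈ NP
      · obtain ⟨u, hu⟩ := hNP H hH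
        exact ⟨u, fun _ => hu⟩
      · exact ⟨0, fun h => absurd h hH⟩
    choose u hu using this
    refine Finset.card_le_card_of_injOn (fun p => (p.1, (u p.1)ᵀ * p.2 * u p.1)) ?_ ?_
    · rintro ⟨H, S⟩ hp
      have hp' := Finset.mem_coe.1 hp
      obtain ⟨hp1, hp2⟩ := Finset.mem_product.1 hp'
      obtain ⟨hu1, hu2⟩ := hu H hp1
      rw [Set.mem_toFinset] at hp2
      obtain ⟨a, ha, ha1, ha2⟩ := hp2
      refine Finset.mem_coe.2 (Finset.mem_image.2 ⟨a * u H, Finset.mem_filter.2
        ⟨Finset.mem_univ _, ?_⟩, ?_⟩)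
      · rw [Matrix.det_mul]; exact mul_ne_zero ha hu1
      · simp only [Φ, Matrix.transpose_mul]
        simp only at ha1 ha2
        refine Prod.ext ?_ ?_
        · show (u H)ᵀ * aᵀ * G0 * (a * u H) = H
          have h9 : (u H)ᵀ * aᵀ * G0 * (a * u H) = (u H)ᵀ * G * u H := by
            rw [ha1]
            simp only [Matrix.mul_assoc]
          rw [h9, hu2]
        · show (u H)ᵀ * aᵀ * S0 * (a * u H) = (u H)ᵀ * S * u H
          rw [ha2]
          simp only [Matrix.mul_assoc]
    · rintro ⟨H, S⟩ hp ⟨H', S'⟩ hp' heq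
      have hp1 := (Finset.mem_product.1 (Finset.mem_coe.1 hp)).1
      simp only [Prod.mk.injEq] at heq
      obtain ⟨rfl, h5⟩ := heq
      obtain ⟨hu1, -⟩ := hu H hp1
      have hu3 : IsUnit (u H) := (Matrix.isUnit_iff_isUnit_det _).2 (isUnit_iff_ne_zero.2 hu1)
      have hu4 : IsUnit (u H)ᵀ := (Matrix.isUnit_iff_isUnit_det _).2 (by
        rw [Matrix.det_transpose]; exact isUnit_iff_ne_zero.2 hu1)
      have h6 := hu4.mul_left_cancel (hu3.mul_right_cancel h5)
      rw [h6]
  have hhalf : NN.card ≤ 2 * NP.card := by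
    obtain ⟨ν, hν⟩ := FiniteField.exists_nonsquare (F := k) (by
      intro h
      exact h2 (by
        have := ringChar.spec k 2
        exact_mod_cast (this.2 (by rw [h]))))
    have hν0 : ν ≠ 0 := by
      rintro rfl
      exact hν (IsSquare.zero)
    have h6 : (NN.filter fun H => ¬ IsSquare (G.det * H.det)).card ≤ NP.card := by
      refine Finset.card_le_card_of_injOn (fun H => ν • H) ?_ ?_
      · intro H hH
        obtain ⟨hH1, hH2⟩ := Finset.mem_filter.1 (Finset.mem_coe.1 hH)
        obtain ⟨-, hH3, hH4⟩ := Finset.mem_filter.1 hH1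
        have hdν : (ν • H).det = ν ^ n * H.det := by
          rw [Matrix.det_smul, Fintype.card_fin]
        refine Finset.mem_coe.2 (Finset.mem_filter.2 ⟨Finset.mem_filter.2
          ⟨Finset.mem_univ _, ?_, ?_⟩, ?_⟩)
        · rw [Matrix.transpose_smul, hH3]
        · rw [hdν]
          exact mul_ne_zero (pow_ne_zero _ hν0) hH4
        · rw [hdν]
          obtain ⟨r, hr⟩ := hodd
          have h7 : IsSquare (ν * (G.det * H.det)) := by
            have hd0 : G.det * H.det ≠ 0 := mul_ne_zero hGd hH4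
            rw [← quadraticChar_one_iff_isSquare (mul_ne_zero hν0 hd0), map_mul,
              quadraticChar_neg_one_iff_not_isSquare.2 hν,
              quadraticChar_neg_one_iff_not_isSquare.2 hH2]
            norm_num
          obtain ⟨z, hz⟩ := h7
          have hνn : ν ^ n = ν * (ν ^ r * ν ^ r) := by
            rw [hr, ← pow_add, ← pow_succ']
            congr 1
            ring
          refine ⟨ν ^ r * z, ?_⟩
          rw [hνn]
          linear_combination (ν ^ r * ν ^ r) * hz
      · intro H _ H' _ h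
        exact smul_right_injective _ hν0 h
    have h7 := Finset.card_filter_add_card_filter_not (s := NN)
      (fun H => IsSquare (G.det * H.det))
    have h8 : NP.card = (NN.filter fun H => IsSquare (G.det * H.det)).card := rfl
    omega
  have hall : Q ^ (n * (n + 1) / 2) * Q ≤ NN.card * Q + n * Q ^ (n * (n + 1) / 2) := by
    let SS : Finset (Matrix (Fin n) (Fin n) k) := Finset.univ.filter fun H => Hᵀ = H
    let Z : Finset (Matrix (Fin n) (Fin n) k) :=
      Finset.univ.filter fun H => Hᵀ = H ∧ H.det = 0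
    have hZ : Z.card * Q ≤ n * Q ^ (n * (n + 1) / 2) := by
      rw [Set.ncard_eq_toFinset_card'] at h3
      convert h3 using 3
      ext H
      simp [Z]
    have hS : SS.card = NN.card + Z.card := by
      have h7 := Finset.card_filter_add_card_filter_not (s := SS) (fun H => H.det ≠ 0)
      rw [← h7]
      congr 2
      · ext H; simp [SS, NN]
      · ext H; simp [SS, Z]
    have hS2 : Q ^ (n * (n + 1) / 2) ≤ SS.card := by
      have h8 : Q ^ (n * (n + 1) / 2) = Fintype.card (Sym2 (Fin n) → k) := by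
        rw [Fintype.card_fun, Sym2.card, Fintype.card_fin, Nat.choose_two_right,
          Nat.add_sub_cancel, Nat.mul_comm]
      rw [h8, ← Finset.card_univ]
      refine Finset.card_le_card_of_injOn
        (fun x => Matrix.of fun i j => x s(i, j)) ?_ ?_
      · intro x _
        refine Finset.mem_coe.2 (Finset.mem_filter.2 ⟨Finset.mem_univ _, ?_⟩)
        ext i j
        simp only [Matrix.transpose_apply, Matrix.of_apply, Sym2.eq_swap]
      · intro x _ y _ hxy
        funext z
        induction z using Sym2.ind with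
        | _ i j => exact congrFun (congrFun hxy i) j
    calc Q ^ (n * (n + 1) / 2) * Q ≤ SS.card * Q := Nat.mul_le_mul_right _ hS2
      _ = NN.card * Q + Z.card * Q := by rw [hS, Nat.add_mul]
      _ ≤ _ := Nat.add_le_add_left hZ _
  -- conclusion
  set A := Q ^ (n * (n + 1) / 2)
  have e1 : (Q - n) * A ≤ NN.card * Q := by
    rw [Nat.sub_mul]
    have : Q * A = A * Q := Nat.mul_comm _ _
    omega
  calc 2 * (Q - n) * φ.ncard * A = 2 * φ.ncard * ((Q - n) * A) := by ring
    _ ≤ 2 * φ.ncard * (NN.card * Q) := Nat.mul_le_mul_left _ e1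
    _ ≤ 2 * φ.ncard * ((2 * NP.card) * Q) :=
        Nat.mul_le_mul_left _ (Nat.mul_le_mul_right _ hhalf)
    _ = 4 * (NP.card * φ.ncard) * Q := by ring
    _ ≤ 4 * (gg.image Φ).card * Q :=
        Nat.mul_le_mul_right _ (Nat.mul_le_mul_left _ hprod)
    _ ≤ gg.card * Q := Nat.mul_le_mul_right _ hE
    _ ≤ Q ^ (n * n) * Q := Nat.mul_le_mul_right _ hGL
    _ = Q * Q ^ (n * n) := by ring

end Pool.HYP.CTX34

namespace Pool.HYP

open Polynomial Matrix Pool.AVS CTX34

theorem ctx (h3 : CX3Stmt) (h4 : CX4Stmt) : CTXStmt := by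
  classical
  intro k _ _ h2 g c γ hg hγm hγd hγi G
  have : Fintype k := Fintype.ofFinite k
  have hfm : ((X - C c) * γ).Monic := (monic_X_sub_C c).mul hγm
  have hfd : ((X - C c) * γ).natDegree = 2 * g + 1 := by
    rw [(monic_X_sub_C c).natDegree_mul hγm, natDegree_X_sub_C, hγd]; ring
  obtain ⟨s, hs1, hs2, hs3⟩ := exists_root h2 c γ hγi (by omega)
  have hdet : (gr 0 (2 * g + 1) ((X - C c) * γ) 1).det ≠ 0 := by
    rw [(gdt k (2 * g + 1) _ hfm hfd).1]
    exact pow_ne_zero _ (neg_ne_zero.2 one_ne_zero)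
  have hsym : (gr 0 (2 * g + 1) ((X - C c) * γ) (1 : k[X]))ᵀ =
      gr 0 (2 * g + 1) ((X - C c) * γ) 1 := by
    ext i j
    simp only [gr, Matrix.transpose_apply, Matrix.of_apply]
    rw [Nat.add_comm (j : ℕ) i]
  have h := core h2 (2 * g + 1) ⟨g, rfl⟩ (gr 0 (2 * g + 1) ((X - C c) * γ) 1)
    (gr 1 (2 * g + 1) ((X - C c) * γ) 1) hsym hdet (mm (2 * g + 1) ((X - C c) * γ) s)
    (mm_gr hfm hfd (by omega) s hs1 0) (mm_gr hfm hfd (by omega) s hs1 1)
    (fun h => hs2 (mm_scalar hfm hfd (by omega) s 1 (by rw [h, one_smul])))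
    (fun h => hs3 (mm_scalar hfm hfd (by omega) s (-1) (by rw [h, neg_smul, one_smul])))
    (by
      have := h3 k (2 * g + 1)
      rwa [Nat.card_eq_fintype_card] at this)
    (h4 k h2 (2 * g + 1)) G
  rw [Nat.card_eq_fintype_card]
  have hQ : 0 < Fintype.card k := Fintype.card_pos
  have hexp : (2 * g + 1) * (2 * g + 1) =
      (2 * g + 1) * g + (2 * g + 1) * (2 * g + 1 + 1) / 2 := by
    have : (2 * g + 1) * (2 * g + 1 + 1) = ((2 * g + 1) * (g + 1)) * 2 := by ring
    rw [this, Nat.mul_div_cancel _ (by norm_num)]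
    ring
  rw [hexp, pow_add, ← mul_assoc] at h
  exact Nat.le_of_mul_le_mul_right h (pow_pos hQ _)

end Pool.HYP
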